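import Mathlib
import Pool.Agent.H12.SpPart

set_option autoImplicit false

namespace Pool.Agent.Results.MP_17d326_co.Counter

open Polynomial

/-- The alternant `A_v = ∑_{w ∈ W} sgn(w) e^{w v}` in the group ring of the weight lattice `ℤ^r`
of type `C_r`; the Weyl group `W` is the group of signed permutations. -/
noncomputable def alt {r : ℕ} (v : Fin r → ℤ) : AddMonoidAlgebra ℤ (Fin r → ℤ) :=
  ∑ σ : Equiv.Perm (Fin r), ∑ s : Fin r → ℤˣ,
    AddMonoidAlgebra.single (fun i => s i * v (σ i)) ((Equiv.Perm.sign σ * ∏ i, s i : ℤˣ) : ℤ)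

/-- The half sum of the positive roots of type `C_r`, namely `(r, r-1, ..., 1)`. -/
def rho (r : ℕ) : Fin r → ℤ := fun i => (r : ℤ) - i

/-- Dominant integral weights of type `C_r`: `v_1 ≥ ... ≥ v_r ≥ 0`. -/
def Dom {r : ℕ} (v : Fin r → ℤ) : Prop := Antitone v ∧ ∀ i, 0 ≤ v i

theorem result :
    ∃ lam mu nu : Fin 3 → ℤ, lam = ![3, 3, 2] ∧ mu = ![3, 3, 3] ∧ nu = ![5, 3, 1] ∧
    Dom lam ∧ Dom mu ∧ Dom nu ∧
    ∃ χ : (Fin 3 → ℤ) → AddMonoidAlgebra ℤ (Fin 3 → ℤ),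
      (∀ κ, Dom κ → alt (rho 3) * χ κ = alt (κ + rho 3)) ∧
    ∃ m : ℕ → (Fin 3 → ℤ) →₀ ℤ,
      (∀ t : ℕ, (∀ κ ∈ (m t).support, Dom κ) ∧
        χ (t • lam) * χ (t • mu) = (m t).sum fun κ c => c • χ κ) ∧
      ∀ p : ℚ[X], (∀ t : ℕ, Odd t → p.eval (t : ℚ) = (m t (t • nu) : ℤ)) →
        p ≠ 0 ∧ ∃ k, p.coeff k < 0 := by
  have hd : ∀ (t : ℕ) (v : Fin 3 → ℤ), Dom v → Dom (t • v) := by
    intro t v hv
    refine ⟨fun i j h => ?_, fun i => ?_⟩
    · exact nsmul_le_nsmul_right (hv.1 h) t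
    · exact nsmul_nonneg (hv.2 i) t
  have d1 : Dom ![3, 3, 2] := ⟨by decide, by decide⟩
  have d2 : Dom ![3, 3, 3] := ⟨by decide, by decide⟩
  have d3 : Dom ![5, 3, 1] := ⟨by decide, by decide⟩
  have hex : ∀ κ : Fin 3 → ℤ, ∃ χ, Dom κ → alt (rho 3) * χ = alt (κ + rho 3) := by
    intro κ
    by_cases h : Dom κ
    · obtain ⟨χ, hχ⟩ := H12.SpChar.exists_char (κ + rho 3)
        (fun i => ((H12.SpChar.sdom_add h).2 i).le)
      exact ⟨χ, fun _ => hχ⟩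
    · exact ⟨0, fun h' => absurd h' h⟩
  choose χ hχ using hex
  have hm := fun t : ℕ => H12.SpChar.decomp χ hχ (hd t _ d1) (hd t _ d2)
  choose m hm1 hm2 using hm
  refine ⟨_, _, _, rfl, rfl, rfl, d1, d2, d3, χ, hχ, m, fun t => ⟨hm1 t, hm2 t⟩, ?_⟩
  have val : ∀ t : ℕ, m t (t • ![5, 3, 1]) = H12.SpChar.St (t • ![3, 3, 2] + rho 3)
      (t • ![3, 3, 3] + rho 3) (t • ![5, 3, 1] + rho 3) := fun t =>
    (H12.SpChar.mult_eq χ hχ (hm1 t) (hm2 t) (hd t _ d3)).trans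
      (H12.SpChar.steinberg (hχ _ (hd t _ d1)) (hχ _ (hd t _ d2)) _)
  have v1 : m 1 (1 • ![5, 3, 1]) = 0 := by
    rw [val, ← H12.SpChar.St1]
    congr 1 <;> decide
  have v3 : m 3 (3 • ![5, 3, 1]) = 1 := by
    rw [val, ← H12.SpChar.St3]
    congr 1 <;> decide
  intro p hp
  have e1 := hp 1 (by decide)
  have e3 := hp 3 (by decide)
  rw [v1] at e1
  rw [v3] at e3
  have hne : p ≠ 0 := by
    rintro rfl
    simp at e3
  refine ⟨hne, ?_⟩
  by_contra hc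
  push Not at hc
  rw [eval_eq_sum_range] at e1
  simp only [Nat.cast_one, one_pow, mul_one, Int.cast_zero] at e1
  have := (Finset.sum_eq_zero_iff_of_nonneg fun i _ => hc i).1 e1 p.natDegree (by simp)
  exact hne (leadingCoeff_eq_zero.1 this)

end Pool.Agent.Results.MP_17d326_co.Counter
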